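import Pool.Agent.Q274.BKL.Stm

/-!
# The congruence between the iterated derivatives of the function of Kronecker

`S_ALG` of `Pool.Agent.Q274.BKL.Stm`.
-/

set_option autoImplicit false
set_option linter.unusedVariables false

namespace Pool.Agent.Q38.BKL

open MvPolynomial
open Pool.Agent.Q274.BKL (QQ dz dw nz nw rz rw')

theorem d_num (δ : Derivation ℤ QQ QQ) (n : ℕ) : δ (n : QQ) = 0 := δ.map_natCast n

theorem d_mul (δ : Derivation ℤ QQ QQ) (P Q : QQ) : δ (P * Q) = P * δ Q + Q * δ P := by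
  rw [δ.leibniz, smul_eq_mul, smul_eq_mul]

theorem d_sq (δ : Derivation ℤ QQ QQ) (P : QQ) : δ (P ^ 2) = 2 * P * δ P := by
  rw [pow_two, d_mul]
  ring

theorem alg (δ : Derivation ℤ QQ QQ) (s k x y l x' : QQ) (hs : δ s = 0) (hk : δ k = 0)
    (hx' : δ x' = 0) (hx : δ x = 2 * y + x) (hy : δ y = 3 * x ^ 2 - 2 * x - 2 - y)
    (hl : δ l = 2 * x + x' - l ^ 2 - l - 1) (n : QQ → QQ) (hn : ∀ P, n P = δ P + (s + l) * P) :
    ∀ m : ℕ, Even m → 2 ≤ m →
      ∃ A B : QQ, n^[m] 1 = n^[2] 1 + 4 * A + (2 * k - s ^ 2 + s + x' - 1) * B := by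
  have d1 : δ (1 : QQ) = 0 := δ.map_one_eq_zero
  have d2 : δ (2 : QQ) = 0 := by
    have h := d_num δ 2
    simpa using h
  have d4 : δ (4 : QQ) = 0 := by
    have h := d_num δ 4
    simpa using h
  have nadd : ∀ P Q : QQ, n (P + Q) = n P + n Q := by
    intro P Q
    rw [hn, hn, hn, map_add]
    ring
  have nmul : ∀ P Q : QQ, n (P * Q) = δ P * Q + P * n Q := by
    intro P Q
    rw [hn, hn, d_mul]
    ring
  have hr : δ (2 * k - s ^ 2 + s + x' - 1) = 0 := by
    rw [map_sub, map_add, map_add, map_sub, d_mul, d_sq, hs, hk, hx', d1, d2]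
    ring
  have ha : δ (2 * s - 1) = 0 := by
    rw [map_sub, d_mul, hs, d1, d2]
    ring
  have hb : δ (x - k) = 2 * y + x := by
    rw [map_sub, hk, hx, sub_zero]
  have hb' : δ (2 * y + x) = 6 * x ^ 2 - 3 * x - 4 := by
    rw [map_add, d_mul, d2, hy, hx]
    ring
  have n1 : n 1 = s + l := by
    rw [hn, d1]
    ring
  have n2 : n (s + l) = (2 * s - 1) * (s + l) + 2 * (x - k) + (2 * k - s ^ 2 + s + x' - 1) := by
    rw [hn, map_add, hs, hl]
    ring
  have nr : ∀ P : QQ, n ((2 * k - s ^ 2 + s + x' - 1) * P) =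
      (2 * k - s ^ 2 + s + x' - 1) * n P := by
    intro P
    rw [nmul, hr]
    ring
  have n4 : ∀ P : QQ, n (4 * P) = 4 * n P := by
    intro P
    rw [nmul, d4]
    ring
  set r : QQ := 2 * k - s ^ 2 + s + x' - 1 with hrdef
  set N2 : QQ := n (s + l) with hN2
  have hnr : n r = r * (s + l) := by
    have h := nr 1
    rwa [mul_one, n1] at h
  have n3 : n N2 = (2 * s - 1) * N2 + 2 * (2 * y + x) + 2 * ((x - k) * (s + l)) +
      r * (s + l) := by
    rw [n2, nadd, nadd, nmul, ha, hnr, nmul, d2, hn (x - k), hb, ← hN2, n2]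
    ring
  have nb : n ((x - k) * (s + l)) = (2 * y + x) * (s + l) + (x - k) * N2 := by
    rw [nmul, hb]
  have nb' : n (2 * y + x) = 6 * x ^ 2 - 3 * x - 4 + (s + l) * (2 * y + x) := by
    rw [hn, hb']
  have n5 : n (n N2) = N2 + 4 * ((s ^ 2 - s) * N2 + s * (2 * y + x) + 3 * x ^ 2 - 2 * x - y - 2 +
      (s + l) * (2 * y + x) + (x - k) * ((2 * s - 1) * (s + l) + (x - k))) +
      r * (2 * (x - k) + (2 * s - 1) * (s + l) + N2) := by
    have e1 : n ((2 * s - 1) * N2) = (2 * s - 1) * n N2 := by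
      rw [nmul, ha]
      ring
    have e2 : n (2 * (2 * y + x)) = 2 * n (2 * y + x) := by
      rw [nmul, d2]
      ring
    have e3 : n (2 * ((x - k) * (s + l))) = 2 * n ((x - k) * (s + l)) := by
      rw [nmul, d2]
      ring
    have e4 : n (n N2) = (2 * s - 1) * n N2 + 2 * n (2 * y + x) +
        2 * n ((x - k) * (s + l)) + r * N2 := by
      conv_lhs => rw [n3]
      rw [nadd, nadd, nadd, e1, e2, e3, nr]
    rw [e4, n3, nb, nb']
    linear_combination (2 * (x - k)) * n2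
  have key : ∀ j : ℕ, ∃ A B : QQ, n^[2 * j + 2] 1 = n^[2] 1 + 4 * A + r * B := by
    intro j
    induction j with
    | zero => exact ⟨0, 0, by ring_nf⟩
    | succ j ih =>
      obtain ⟨A, B, h⟩ := ih
      have e1 : n^[2 * (j + 1) + 2] 1 = n (n (n^[2 * j + 2] 1)) := by
        rw [← Function.iterate_succ_apply' n, ← Function.iterate_succ_apply' n]
        rfl
      have e2 : n^[2] 1 = N2 := by
        rw [Function.iterate_succ_apply', Function.iterate_one, n1]
      refine ⟨(s ^ 2 - s) * N2 + s * (2 * y + x) + 3 * x ^ 2 - 2 * x - y - 2 +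
        (s + l) * (2 * y + x) + (x - k) * ((2 * s - 1) * (s + l) + (x - k)) + n (n A),
        2 * (x - k) + (2 * s - 1) * (s + l) + N2 + n (n B), ?_⟩
      rw [e1, h, e2, nadd, nadd, nadd, nadd, nr, nr, n4, n4, n5]
      ring
  intro m hm h2
  obtain ⟨j, hj⟩ := hm
  have hj2 : m = 2 * (j - 1) + 2 := by omega
  rw [hj2]
  exact key (j - 1)

theorem t_ALG : Pool.Agent.Q274.BKL.S_ALG := by
  constructor
  · intro m hm h2
    refine alg dz (X 5) (X 8) (X 1) (X 2) (X 4) (X 6) ?_ ?_ ?_ ?_ ?_ ?_ nz (fun P => rfl) m hm h2 <;>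
    · rw [dz, mkDerivation_X]
      rfl
  · intro m hm h2
    refine alg dw (X 0) (X 3) (X 6) (X 7) (X 4) (X 1) ?_ ?_ ?_ ?_ ?_ ?_ nw (fun P => rfl) m hm h2 <;>
    · rw [dw, mkDerivation_X]
      rfl

end Pool.Agent.Q38.BKL
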