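import Pool.Agent.Q38.BKL.Base

/-!
# Series in a parameter with integral coefficients form a ring

`S_IR1` of `Pool.Agent.Q274.BKL.Stm`.
-/

set_option autoImplicit false

namespace Pool.Agent.Q38.BKL

theorem t_IR1 : Pool.Agent.Q274.BKL.S_IR1 := by
  intro Γ _ v T hT
  exact ⟨fun c hc => IR.cn hT hc, fun k => IR.tk hT k, fun f g hf hg => IR.sm hT hf hg,
    fun f g hf hg => IR.ml hT hf hg, fun f g h hf => IR.cg hT h hf⟩

end Pool.Agent.Q38.BKL
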