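import Pool.Agent.Q38.BKL.Base

/-!
# The leading coefficient of a series with integral coefficients is integral

`S_IR2` of `Pool.Agent.Q274.BKL.Stm`.
-/

set_option autoImplicit false
set_option linter.unusedVariables false

open Filter
open scoped Topology

namespace Pool.Agent.Q38.BKL

open Pool.Agent.Q274.BKL (Uni IR)

theorem zpow_lim0 {m : ℤ} (h : 0 < m) : Tendsto (fun w : ℂ => w ^ m) (𝓝[≠] 0) (𝓝 0) := by
  have h1 := (O.const 1).lim0 (m := m) (by omega)
  refine h1.congr fun w => ?_
  rw [one_mul]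

theorem ir2_aux {Γ : Type} [LinearOrderedCommGroupWithZero Γ] {v : Valuation ℂ Γ} {T : ℂ → ℂ}
    (hT : Uni T) (m : ℤ) (c : ℂ) (d : ℤ → ℂ) (hd : ∀ k, v (d k) ≤ 1) :
    ∀ (n : ℕ) (a : ℤ), a + n = -m + 1 →
      Tendsto (fun w => (∑ k ∈ Finset.Ico a (-m + 1), d k * T w ^ k) * w ^ m) (𝓝[≠] 0) (𝓝 c) →
        v c ≤ 1 := by
  intro n
  induction n with
  | zero =>
    intro a ha h
    have h1 : Finset.Ico a (-m + 1) = ∅ := by
      rw [Finset.Ico_eq_empty_iff]
      push_cast at ha
      omega
    simp only [h1, Finset.sum_empty, zero_mul] at h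
    have h2 : c = 0 := tendsto_nhds_unique h tendsto_const_nhds
    rw [h2, map_zero]
    exact zero_le_one
  | succ n ih =>
    intro a ha h
    push_cast at ha
    have h1 : ∀ w : ℂ, ∑ k ∈ Finset.Ico a (-m + 1), d k * T w ^ k =
        d a * T w ^ a + ∑ k ∈ Finset.Ico (a + 1) (-m + 1), d k * T w ^ k := by
      intro w
      have h2 : Finset.Ico a (-m + 1) = insert a (Finset.Ico (a + 1) (-m + 1)) := by
        ext k
        simp only [Finset.mem_insert, Finset.mem_Ico]
        omega
      rw [h2, Finset.sum_insert (by simp)]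
    have hP : O (a + 1) (fun w => ∑ k ∈ Finset.Ico (a + 1) (-m + 1), d k * T w ^ k) :=
      O.sum _ _ fun k hk => (cT_O hT (d k) k).mono (Finset.mem_Ico.mp hk).1
    have h3 : Tendsto (fun w => (∑ k ∈ Finset.Ico a (-m + 1), d k * T w ^ k) * w ^ (-a))
        (𝓝[≠] 0) (𝓝 (d a)) := by
      have h4 := ((T_lim hT a).const_mul (d a)).add (hP.lim0 (m := -a) (by omega))
      rw [mul_one, add_zero] at h4
      refine h4.congr fun w => ?_
      rw [h1 w]
      ring
    by_cases hn : a = -m
    · have h5 : c = d a := by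
        refine tendsto_nhds_unique h ?_
        have h6 : -a = m := by omega
        rwa [h6] at h3
      rw [h5]
      exact hd a
    · have h5 : d a = 0 := by
        refine tendsto_nhds_unique h3 ?_
        have h6 := h.mul (zpow_lim0 (m := -m - a) (by omega))
        rw [mul_zero] at h6
        refine h6.congr' ?_
        filter_upwards [ev_ne] with w hw
        rw [mul_assoc, ← zpow_add₀ hw]
        congr 2
        ring
      refine ih (a + 1) (by omega) (h.congr fun w => ?_)
      rw [h1 w, h5]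
      ring

theorem ir2 {Γ : Type} [LinearOrderedCommGroupWithZero Γ] {v : Valuation ℂ Γ} {T f : ℂ → ℂ}
    (hT : Uni T) (hf : IR v T f) (m : ℤ) (c : ℂ)
    (h : Tendsto (fun w => f w * w ^ m) (𝓝[≠] 0) (𝓝 c)) : v c ≤ 1 := by
  obtain ⟨a, d, h1, h2⟩ := IR.appO hT hf (-m + 1)
  have h3 := h2.lim0 (m := m) (by omega)
  have h4 : Tendsto (fun w => (∑ k ∈ Finset.Ico a (-m + 1), d k * T w ^ k) * w ^ m)
      (𝓝[≠] 0) (𝓝 c) := by
    have h5 := h.sub h3
    rw [sub_zero] at h5
    refine h5.congr fun w => ?_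
    ring
  by_cases ha : a ≤ -m + 1
  · exact ir2_aux hT m c d h1 (-m + 1 - a).toNat a (by omega) h4
  · have h5 : Finset.Ico a (-m + 1) = ∅ := by
      rw [Finset.Ico_eq_empty_iff]
      omega
    simp only [h5, Finset.sum_empty, zero_mul] at h4
    have h6 : c = 0 := tendsto_nhds_unique h4 tendsto_const_nhds
    rw [h6, map_zero]
    exact zero_le_one

theorem t_IR2 : Pool.Agent.Q274.BKL.S_IR2 := by
  intro Γ _ v T f hT hf m c h
  exact ir2 hT hf m c h

end Pool.Agent.Q38.BKL
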