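import Pool.Agent.Q38.BKL.Base

/-!
# Derivatives of series with integral coefficients

`S_IR4` of `Pool.Agent.Q274.BKL.Stm`.
-/

set_option autoImplicit false
set_option linter.unusedVariables false

open Filter
open scoped Topology

namespace Pool.Agent.Q38.BKL

open Pool.Agent.Q274.BKL (Uni IR)

theorem v_int {Γ : Type} [LinearOrderedCommGroupWithZero Γ] (v : Valuation ℂ Γ) (k : ℤ) :
    v (k : ℂ) ≤ 1 := intCast_mem v.integer k

theorem t_IR4 : Pool.Agent.Q274.BKL.S_IR4 := by
  intro _ Γ _ v T f hT hT' hf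
  refine IR.lim hT hf.mer.deriv fun N => ?_
  obtain ⟨a, c, h1, h2⟩ := IR.appO hT hf (N + 1)
  refine ⟨fun w => ∑ k ∈ Finset.Ico a (N + 1), (c k * k) * T w ^ (k - 1) * deriv T w, ?_, ?_⟩
  · refine IR.fsum hT _ _ fun k _ => IR.mulmn hT hT' ?_ _
    rw [map_mul]
    exact mul_le_one' (h1 k) (v_int v k)
  · have h3 := h2.deriv
    have h4 : N + 1 - 1 = N := by ring
    rw [h4] at h3
    refine h3.congr ?_
    filter_upwards [hT.mer.eventually_analyticAt, hf.mer.eventually_analyticAt, T_ne hT] with w h5 h6 h7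
    have h8 : HasDerivAt (fun w => ∑ k ∈ Finset.Ico a (N + 1), c k * T w ^ k)
        (∑ k ∈ Finset.Ico a (N + 1), (c k * k) * T w ^ (k - 1) * deriv T w) w := by
      refine HasDerivAt.fun_sum fun k _ => ?_
      have h9 := ((hasDerivAt_zpow k (T w) (Or.inl h7)).comp w
        h5.differentiableAt.hasDerivAt).const_mul (c k)
      refine (h9.congr_deriv ?_)
      ring
    have h9 := h6.differentiableAt.hasDerivAt.sub h8
    exact h9.deriv

end Pool.Agent.Q38.BKL
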