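import Pool.Agent.Q38.BKL.IR3

/-!
# Dilations of series with integral coefficients

`S_IR5` of `Pool.Agent.Q274.BKL.Stm`.
-/

set_option autoImplicit false
set_option linter.unusedVariables false

open Filter
open scoped Topology

namespace Pool.Agent.Q38.BKL

open Pool.Agent.Q274.BKL (Uni IR)

section

variable {Γ : Type} [LinearOrderedCommGroupWithZero Γ] {v : Valuation ℂ Γ} {T f : ℂ → ℂ}

theorem tendsto_dil {b : ℂ} (hb : b ≠ 0) : Tendsto (fun w : ℂ => b * w) (𝓝[≠] 0) (𝓝[≠] 0) := by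
  refine tendsto_nhdsWithin_iff.mpr ⟨?_, ?_⟩
  · have h1 : Tendsto (fun w : ℂ => b * w) (𝓝 0) (𝓝 (b * 0)) :=
      (continuous_const.mul continuous_id).tendsto 0
    rw [mul_zero] at h1
    exact h1.mono_left nhdsWithin_le_nhds
  · filter_upwards [ev_ne] with w hw
    exact mul_ne_zero hb hw

theorem IR.dil (hT : Uni T) {b : ℂ} (hb : v b = 1) (hTb : IR v T (fun w => T (b * w)))
    (hf : IR v T f) : IR v T (fun w => f (b * w)) := by
  have hb0 : b ≠ 0 := by
    rintro rfl
    rw [map_zero] at hb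
    exact zero_ne_one hb
  have hl : Tendsto (fun w => T (b * w) * w ^ (-1 : ℤ)) (𝓝[≠] 0) (𝓝 b) := by
    have h1 := (hT.lim.comp (tendsto_dil hb0)).mul_const b
    rw [one_mul] at h1
    refine h1.congr' ?_
    filter_upwards [ev_ne] with w hw
    simp only [Function.comp_apply]
    rw [zpow_neg_one]
    field_simp
  have hi : IR v T (fun w => (T (b * w))⁻¹) := IR.iv hT hTb hl hb
  have hz : ∀ k : ℤ, IR v T (fun w => T (b * w) ^ k) := by
    intro k
    cases k with
    | ofNat n =>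
      refine IR.cg hT (Eventually.of_forall fun w => ?_) (IR.pw hT hTb n)
      simp
    | negSucc n =>
      refine IR.cg hT (Eventually.of_forall fun w => ?_) (IR.pw hT hi (n + 1))
      simp only [zpow_negSucc, inv_pow]
  obtain ⟨a0, ha0⟩ := O.low hf.mer
  refine IR.lim hT (ha0.comp hb0).mer fun N => ?_
  obtain ⟨a, c, h1, h2⟩ := IR.appO hT hf N
  exact ⟨fun w => ∑ k ∈ Finset.Ico a N, c k * T (b * w) ^ k,
    IR.fsum hT _ _ fun k _ => IR.cf hT (hz k) (h1 k), h2.comp hb0⟩

theorem ir5b (hT : Uni T) {b : ℂ} (hb : v b = 1) (hTb : IR v T (fun w => T (b * w)))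
    {a c : ℂ} (hm : MeromorphicAt f 0) (ha : v a = 1) (hc : v c < 1)
    (h : IR v T (fun w => a * f (b * w) + c * f w)) : IR v T f := by
  have hb0 : b ≠ 0 := by
    rintro rfl
    rw [map_zero] at hb
    exact zero_ne_one hb
  obtain ⟨j0, hj0⟩ := O.low hm
  refine IR.build hT hj0 fun j Q d hj hQ _ _ _ hd => ?_
  have h1 : v (a * b ^ j + c) = 1 := by
    have h2 : v (a * b ^ j) = 1 := by rw [map_mul, map_zpow₀, ha, hb, one_zpow, one_mul]
    rw [Valuation.map_add_eq_of_lt_left, h2]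
    rwa [h2]
  have h3 : IR v T (fun w => (a * f (b * w) + c * f w) - (a * Q (b * w) + c * Q w)) :=
    IR.sb hT h (IR.sm hT (IR.cf hT (IR.dil hT hb hTb hQ) ha.le) (IR.cf hT hQ hc.le))
  refine le_of_mul h1 (ir2 hT h3 (-j) _ ?_)
  have h4 := (((hd.comp (tendsto_dil hb0)).const_mul (a * b ^ j)).add (hd.const_mul c))
  have h5 : a * b ^ j * d + c * d = (a * b ^ j + c) * d := by ring
  rw [h5] at h4
  refine h4.congr' ?_
  filter_upwards [ev_ne] with w hw
  simp only [Function.comp_apply]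
  rw [mul_zpow]
  have h6 : b ^ j * b ^ (-j) = 1 := by rw [← zpow_add₀ hb0, add_neg_cancel, zpow_zero]
  linear_combination a * (f (b * w) - Q (b * w)) * w ^ (-j) * h6

end

theorem t_IR5 : Pool.Agent.Q274.BKL.S_IR5 := by
  intro _ _ _ Γ _ v T f b hT hb hTb
  exact ⟨fun hf => IR.dil hT hb hTb hf, fun a c hm ha hc h => ir5b hT hb hTb hm ha hc h⟩

end Pool.Agent.Q38.BKL
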