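import Pool.Agent.Q38.BKL.IR3

/-!
# The coordinates as series in the parameter `-x / y` with integral coefficients

`S_XY` of `Pool.Agent.Q274.BKL.Stm`.
-/

set_option autoImplicit false
set_option linter.unusedVariables false

open Filter
open scoped Topology PeriodPair

namespace Pool.Agent.Q38.BKL

open Pool.Agent.Q274.BKL (Uni IR xw yw Tw)
open Pool.Agent.Y698 (LD)

section

variable (L : PeriodPair)

theorem cont0_e : ContinuousAt ℘[L - (0 : ℂ)] 0 := (L.analyticAt_weierstrassPExcept 0).continuousAt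

theorem cont0_d : ContinuousAt ℘'[L - (0 : ℂ)] 0 :=
  (L.analyticAt_derivWeierstrassPExcept 0).continuousAt

theorem wp_eq (w : ℂ) : ℘[L] w = ℘[L - (0 : ℂ)] w + 1 / w ^ 2 := by
  have h := L.weierstrassPExcept_def (0 : L.lattice) w
  simp only [ZeroMemClass.coe_zero, sub_zero] at h
  rw [h]
  simp

theorem wp'_eq (w : ℂ) : ℘'[L] w = ℘'[L - (0 : ℂ)] w - 2 / w ^ 3 := by
  have h := L.derivWeierstrassPExcept_def (0 : L.lattice) w
  simp only [ZeroMemClass.coe_zero, sub_zero] at h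
  rw [h]
  ring

theorem tpow (n : ℕ) (hn : n ≠ 0) : Tendsto (fun w : ℂ => w ^ n) (𝓝[≠] 0) (𝓝 0) := by
  have h : Tendsto (fun w : ℂ => w ^ n) (𝓝 0) (𝓝 (0 ^ n)) := (continuous_pow n).tendsto 0
  rw [zero_pow hn] at h
  exact h.mono_left nhdsWithin_le_nhds

theorem x_lim : Tendsto (fun w => xw L w * w ^ 2) (𝓝[≠] 0) (𝓝 1) := by
  have h1 : Tendsto (fun w => (℘[L - (0 : ℂ)] w + 1 / 4) * w ^ 2 + 1) (𝓝[≠] 0)
      (𝓝 ((℘[L - (0 : ℂ)] 0 + 1 / 4) * 0 + 1)) :=
    ((((cont0_e L).tendsto.mono_left nhdsWithin_le_nhds).add_const _).mul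
      (tpow 2 two_ne_zero)).add_const 1
  rw [mul_zero, zero_add] at h1
  refine h1.congr' ?_
  filter_upwards [ev_ne] with w hw
  rw [xw, wp_eq L w]
  field_simp
  ring

theorem y_lim : Tendsto (fun w => yw L w * w ^ 3) (𝓝[≠] 0) (𝓝 (-1)) := by
  have h1 : Tendsto (fun w => (℘'[L - (0 : ℂ)] w * w ^ 3 - 2 - xw L w * w ^ 2 * w ^ 1) / 2) (𝓝[≠] 0)
      (𝓝 ((℘'[L - (0 : ℂ)] 0 * 0 - 2 - 1 * 0) / 2)) :=
    ((((((cont0_d L).tendsto.mono_left nhdsWithin_le_nhds).mul (tpow 3 three_ne_zero))).sub_const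
      2).sub ((x_lim L).mul (tpow 1 one_ne_zero))).div_const 2
  have h2 : ((℘'[L - (0 : ℂ)] 0 * 0 - 2 - 1 * 0) / 2 : ℂ) = -1 := by ring
  rw [h2] at h1
  refine h1.congr' ?_
  filter_upwards [ev_ne] with w hw
  rw [yw, wp'_eq L w]
  field_simp

theorem x_mer : MeromorphicAt (xw L) 0 :=
  (L.meromorphic_weierstrassP 0).fun_add (MeromorphicAt.const _ 0)

theorem y_mer : MeromorphicAt (yw L) 0 := by
  have h := (((L.meromorphic_derivWeierstrassP 0).fun_sub (x_mer L)).fun_div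
    (MeromorphicAt.const (2 : ℂ) 0))
  exact h

theorem T_uni : Uni (Tw L) := by
  refine ⟨((x_mer L).fun_div (y_mer L)).fun_neg, ?_⟩
  have h1 := ((x_lim L).div (y_lim L) (by norm_num)).neg
  have h2 : -((1 : ℂ) / -1) = 1 := by norm_num
  rw [h2] at h1
  have hy : ∀ᶠ w in 𝓝[≠] (0 : ℂ), yw L w ≠ 0 := by
    filter_upwards [(y_lim L).eventually_ne (by norm_num : (-1 : ℂ) ≠ 0)] with w hw h0
    rw [h0, zero_mul] at hw
    exact hw rfl
  refine h1.congr' ?_
  filter_upwards [ev_ne, hy] with w hw h3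
  rw [Tw]
  simp only [Pi.div_apply]
  field_simp

theorem ev_lat : ∀ᶠ w in 𝓝[≠] (0 : ℂ), w ∉ L.lattice := by
  have h := L.compl_lattice_sdiff_singleton_mem_nhds 0
  filter_upwards [mem_nhdsWithin_of_mem_nhds h, ev_ne] with w hw h0 hmem
  exact hw ⟨hmem, h0⟩

end

theorem curve {L : PeriodPair} {Ω : ℂ} (h : LD L Ω) {w : ℂ} (hw : w ∉ L.lattice) :
    yw L w ^ 2 + xw L w * yw L w = xw L w ^ 3 - xw L w ^ 2 - 2 * xw L w - 1 := by
  have h1 := h.ode hw
  have h2 : Pool.Agent.Y698.Xx L w = xw L w := rfl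
  rw [h2] at h1
  have h3 : ℘'[L] w = 2 * yw L w + xw L w := by
    rw [yw]
    ring
  rw [h3] at h1
  linear_combination (1 / 4 : ℂ) * h1

theorem x_der {L : PeriodPair} {Ω : ℂ} (h : LD L Ω) {w : ℂ} (hw : w ∉ L.lattice) :
    HasDerivAt (xw L) (2 * yw L w + xw L w) w := by
  have h1 : DifferentiableAt ℂ ℘[L] w := (L.analyticOnNhd_weierstrassP w hw).differentiableAt
  have h2 := h1.hasDerivAt
  rw [L.deriv_weierstrassP] at h2
  have h3 := h2.add_const (1 / 4 : ℂ)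
  have h4 : ℘'[L] w = 2 * yw L w + xw L w := by
    rw [yw]
    ring
  rw [h4] at h3
  exact h3

theorem y_der {L : PeriodPair} {Ω : ℂ} (h : LD L Ω) {w : ℂ} (hw : w ∉ L.lattice) :
    HasDerivAt (yw L) (3 * xw L w ^ 2 - 2 * xw L w - 2 - yw L w) w := by
  have h1 := ((Pool.Agent.TH936.CW.hasDerivAt_wp'_all L hw).sub (x_der h hw)).div_const 2
  rw [h.g2] at h1
  refine h1.congr_deriv ?_
  have h2 : ℘[L] w = xw L w - 1 / 4 := by
    rw [xw]
    ring
  rw [h2]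
  ring

section

variable {Γ : Type} [LinearOrderedCommGroupWithZero Γ]

theorem W_IR {L : PeriodPair} {Ω : ℂ} (h : LD L Ω) (v : Valuation ℂ Γ) :
    IR v (Tw L) (fun w => -(yw L w)⁻¹) := by
  have hT := T_uni L
  set T := Tw L with hTd
  set W : ℂ → ℂ := fun w => -(yw L w)⁻¹ with hW
  have hy : ∀ᶠ w in 𝓝[≠] (0 : ℂ), yw L w ≠ 0 := by
    filter_upwards [(y_lim L).eventually_ne (by norm_num : (-1 : ℂ) ≠ 0)] with w hw h0
    rw [h0, zero_mul] at hw
    exact hw rfl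
  have hWm : MeromorphicAt W 0 := (y_mer L).fun_inv.fun_neg
  have hWl : Tendsto (fun w => W w * w ^ (-3 : ℤ)) (𝓝[≠] 0) (𝓝 1) := by
    have h1 := ((y_lim L).inv₀ (by norm_num : (-1 : ℂ) ≠ 0)).neg
    have h2 : -(-1 : ℂ)⁻¹ = 1 := by norm_num
    rw [h2] at h1
    refine h1.congr fun w => ?_
    simp only [hW]
    rw [mul_inv, zpow_neg]
    norm_cast
    ring
  have hW3 : O 3 W := O.of_lim hWm hWl
  have hW0 : O 0 W := hW3.mono (by norm_num)
  have hT1 : O 1 T := by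
    refine (T_O hT 1).congr (Eventually.of_forall fun w => ?_)
    simp
  have hT0 : O 0 T := hT1.mono (by norm_num)
  have heq : ∀ᶠ w in 𝓝[≠] (0 : ℂ), W w = T w ^ 3 + T w * W w - T w ^ 2 * W w -
      2 * T w * W w ^ 2 - W w ^ 3 := by
    filter_upwards [ev_lat L, hy] with w h1 h2
    have h3 := curve h h1
    simp only [hW, hTd, Tw]
    field_simp
    linear_combination (-1 : ℂ) * h3
  refine IR.build hT hW3 fun j Q d hj hQ _ hO _ hd => ?_
  -- insert the approximation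
  have hQO : O 3 Q := by
    refine ((hW3.sub (hO.mono hj))).congr (Eventually.of_forall fun w => ?_)
    ring
  have hQ0 : O 0 Q := hQO.mono (by norm_num)
  have hTI : IR v T T := by
    refine IR.cg hT (Eventually.of_forall fun w => ?_) (IR.tk hT 1)
    rw [zpow_one]
  have h2 : v (2 : ℂ) ≤ 1 := by
    have h9 : v ((2 : ℕ) : ℂ) ≤ 1 := natCast_mem v.integer 2
    exact_mod_cast h9
  have hE : IR v T (fun w => T w ^ 3 + T w * Q w - T w ^ 2 * Q w - 2 * (T w * Q w ^ 2) -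
      Q w ^ 3 - Q w) :=
    IR.sb hT (IR.sb hT (IR.sb hT (IR.sb hT (IR.sm hT (IR.pw hT hTI 3) (IR.ml hT hTI hQ))
      (IR.ml hT (IR.pw hT hTI 2) hQ)) (IR.cf hT (IR.ml hT hTI (IR.pw hT hQ 2)) h2))
      (IR.pw hT hQ 3)) hQ
  refine ir2 hT hE (-j) d ?_
  -- the difference
  have hD : O (j + 1) (fun w => (W w - Q w) * (T w - T w * T w -
      2 * (T w * (W w + Q w)) - (W w * W w + W w * Q w + Q w * Q w))) := by
    refine hO.mul ?_
    have t1 : O 1 (fun w => T w * T w) := (hT1.mul hT1).mono (by norm_num)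
    have t2 : O 1 (fun w => 2 * (T w * (W w + Q w))) :=
      ((hT1.mul (hW0.add hQ0)).mono (by norm_num)).cmul 2
    have t3 : O 1 (fun w => W w * W w + W w * Q w + Q w * Q w) :=
      (((hW3.mul hW3).mono (by norm_num)).add ((hW3.mul hQO).mono (by norm_num))).add
        ((hQO.mul hQO).mono (by norm_num))
    exact ((hT1.sub t1).sub t2).sub t3
  have h3 := hD.lim0 (m := -j) (by omega)
  have h4 := hd.sub h3
  rw [sub_zero] at h4
  refine h4.congr' ?_
  filter_upwards [heq] with w hw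
  linear_combination (w ^ (-j)) * hw

theorem t_XY : Pool.Agent.Q274.BKL.S_XY := by
  intro _ _ _ L Ω h
  have hT := T_uni L
  refine ⟨hT, fun Γ _ v => ?_⟩
  have hy : ∀ᶠ w in 𝓝[≠] (0 : ℂ), yw L w ≠ 0 := by
    filter_upwards [(y_lim L).eventually_ne (by norm_num : (-1 : ℂ) ≠ 0)] with w hw h0
    rw [h0, zero_mul] at hw
    exact hw rfl
  have hW := W_IR h v
  have hTI : IR v (Tw L) (Tw L) := by
    refine IR.cg hT (Eventually.of_forall fun w => ?_) (IR.tk hT 1)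
    rw [zpow_one]
  have hWl : Tendsto (fun w => -(yw L w)⁻¹ * w ^ (-3 : ℤ)) (𝓝[≠] 0) (𝓝 1) := by
    have h1 := ((y_lim L).inv₀ (by norm_num : (-1 : ℂ) ≠ 0)).neg
    have h2 : -(-1 : ℂ)⁻¹ = 1 := by norm_num
    rw [h2] at h1
    refine h1.congr fun w => ?_
    rw [mul_inv, zpow_neg]
    norm_cast
    ring
  have hyI : IR v (Tw L) (yw L) := by
    have h1 := IR.ng hT (IR.iv hT hW hWl (by simp))
    refine IR.cg hT ?_ h1
    filter_upwards [hy] with w h2
    field_simp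
  have hxI : IR v (Tw L) (xw L) := by
    have h1 := IR.ng hT (IR.ml hT hTI hyI)
    refine IR.cg hT ?_ h1
    filter_upwards [hy] with w h2
    rw [Tw]
    field_simp
  refine ⟨hxI, hyI, ?_⟩
  have h2 : v (2 : ℂ) ≤ 1 := by
    have h9 : v ((2 : ℕ) : ℂ) ≤ 1 := natCast_mem v.integer 2
    exact_mod_cast h9
  have h3 : v (3 : ℂ) ≤ 1 := by
    have h9 : v ((3 : ℕ) : ℂ) ≤ 1 := natCast_mem v.integer 3
    exact_mod_cast h9
  have h5 : IR v (Tw L) (fun w => -(((2 * yw L w + xw L w) * yw L w - xw L w *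
      (3 * xw L w ^ 2 - 2 * xw L w - 2 - yw L w)) * (-(yw L w)⁻¹) ^ 2)) := by
    refine IR.ng hT (IR.ml hT ?_ (IR.pw hT hW 2))
    refine IR.sb hT (IR.ml hT (IR.sm hT (IR.cf hT hyI h2) hxI) hyI) (IR.ml hT hxI ?_)
    exact IR.sb hT (IR.sb hT (IR.sb hT (IR.cf hT (IR.pw hT hxI 2) h3) (IR.cf hT hxI h2))
      (IR.cn hT h2)) hyI
  refine IR.cg hT ?_ h5
  filter_upwards [hy, ev_lat L] with w h6 h7
  have h8 := ((x_der h h7).div (y_der h h7) h6).neg
  have h9 : Tw L = -(xw L / yw L) := by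
    ext w
    simp [Tw]
  rw [h9, h8.deriv]
  field_simp

end

end Pool.Agent.Q38.BKL
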