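import Pool.Agent.Q274.BKL.Stm

/-!
# Orders of vanishing at the origin and approximations by Laurent polynomials in a parameter
-/

set_option autoImplicit false
set_option linter.unusedVariables false

open Filter
open scoped Topology

namespace Pool.Agent.Q38.BKL

open Pool.Agent.Q274.BKL (Uni IR)

/-- `f` is meromorphic at the origin, of order at least `N` -/
structure O (N : ℤ) (f : ℂ → ℂ) : Prop where
  mer : MeromorphicAt f 0
  ord : (N : WithTop ℤ) ≤ meromorphicOrderAt f 0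

theorem mer_id : MeromorphicAt (fun w : ℂ => w) 0 := MeromorphicAt.id 0

theorem mer_zpow (k : ℤ) : MeromorphicAt (fun w : ℂ => w ^ k) 0 := mer_id.fun_zpow k

theorem ev_ne : ∀ᶠ w : ℂ in 𝓝[≠] 0, w ≠ 0 := self_mem_nhdsWithin

theorem ord_zpow (k : ℤ) : meromorphicOrderAt (fun w : ℂ => w ^ k) 0 = (k : WithTop ℤ) := by
  rw [meromorphicOrderAt_eq_int_iff (mer_zpow k)]
  refine ⟨fun _ => 1, analyticAt_const, one_ne_zero, ?_⟩
  filter_upwards with w
  simp

theorem O.congr {N : ℤ} {f g : ℂ → ℂ} (hf : O N f) (h : f =ᶠ[𝓝[≠] 0] g) : O N g :=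
  ⟨hf.mer.congr h, (meromorphicOrderAt_congr h) ▸ hf.ord⟩

theorem O.mono {a b : ℤ} {f : ℂ → ℂ} (hf : O b f) (h : a ≤ b) : O a f :=
  ⟨hf.mer, le_trans (WithTop.coe_le_coe.mpr h) hf.ord⟩

theorem O.add {N : ℤ} {f g : ℂ → ℂ} (hf : O N f) (hg : O N g) : O N (fun w => f w + g w) :=
  ⟨hf.mer.fun_add hg.mer, le_trans (le_min hf.ord hg.ord) (meromorphicOrderAt_add hf.mer hg.mer)⟩

theorem O.neg {N : ℤ} {f : ℂ → ℂ} (hf : O N f) : O N (fun w => -f w) :=
  ⟨hf.mer.fun_neg, by rw [← meromorphicOrderAt_fun_neg]; exact hf.ord⟩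

theorem O.sub {N : ℤ} {f g : ℂ → ℂ} (hf : O N f) (hg : O N g) : O N (fun w => f w - g w) :=
  (hf.add hg.neg).congr (Eventually.of_forall fun w => (sub_eq_add_neg _ _).symm)

theorem O.mul {a b : ℤ} {f g : ℂ → ℂ} (hf : O a f) (hg : O b g) :
    O (a + b) (fun w => f w * g w) := by
  refine ⟨hf.mer.fun_mul hg.mer, ?_⟩
  have h := meromorphicOrderAt_mul hf.mer hg.mer
  have h' : meromorphicOrderAt (fun w => f w * g w) 0 = meromorphicOrderAt (f * g) 0 := rfl
  rw [h', h, WithTop.coe_add]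
  exact add_le_add hf.ord hg.ord

theorem O.const (c : ℂ) : O 0 (fun _ => c) :=
  ⟨MeromorphicAt.const c 0, analyticAt_const.meromorphicOrderAt_nonneg⟩

theorem O.zero (N : ℤ) : O N (fun _ => (0 : ℂ)) := by
  refine ⟨MeromorphicAt.const 0 0, ?_⟩
  rw [meromorphicOrderAt_eq_top_iff.mpr (Eventually.of_forall fun _ => rfl)]
  exact le_top

theorem O.cmul {N : ℤ} {f : ℂ → ℂ} (c : ℂ) (hf : O N f) : O N (fun w => c * f w) := by
  have h := (O.const c).mul hf
  rwa [zero_add] at h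

theorem O.zpow (k : ℤ) : O k (fun w : ℂ => w ^ k) := ⟨mer_zpow k, (ord_zpow k).ge⟩

theorem O.sum {ι : Type*} {N : ℤ} (s : Finset ι) (f : ι → ℂ → ℂ) (h : ∀ i ∈ s, O N (f i)) :
    O N (fun w => ∑ i ∈ s, f i w) := by
  classical
  induction s using Finset.induction_on with
  | empty => simpa using O.zero N
  | insert i s hi ih =>
    have h1 := (h i (Finset.mem_insert_self i s)).add
      (ih fun j hj => h j (Finset.mem_insert_of_mem hj))
    refine h1.congr (Eventually.of_forall fun w => ?_)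
    simp only [Finset.sum_insert hi]

/-- multiplication by a power of the variable -/
theorem O.shift {N : ℤ} {f : ℂ → ℂ} (hf : O N f) (m : ℤ) : O (N + m) (fun w => f w * w ^ m) :=
  hf.mul (O.zpow m)

theorem O.of_shift {N : ℤ} {f : ℂ → ℂ} (m : ℤ) (h : O (N + m) (fun w => f w * w ^ m)) : O N f := by
  have h1 := h.shift (-m)
  rw [add_neg_cancel_right] at h1
  refine h1.congr ?_
  filter_upwards [ev_ne] with w hw
  rw [mul_assoc, ← zpow_add₀ hw, add_neg_cancel, zpow_zero, mul_one]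

theorem O.lim {N : ℤ} {f : ℂ → ℂ} (hf : O N f) :
    ∃ c, Tendsto (fun w => f w * w ^ (-N)) (𝓝[≠] 0) (𝓝 c) := by
  have h := hf.shift (-N)
  rw [add_neg_cancel] at h
  exact (tendsto_nhds_iff_meromorphicOrderAt_nonneg h.mer).mpr h.ord

theorem mer_mul_zpow {f : ℂ → ℂ} (hf : MeromorphicAt f 0) (m : ℤ) :
    MeromorphicAt (fun w => f w * w ^ m) 0 := hf.fun_mul (mer_zpow m)

theorem O.of_lim {N : ℤ} {f : ℂ → ℂ} (hf : MeromorphicAt f 0) {c : ℂ}
    (h : Tendsto (fun w => f w * w ^ (-N)) (𝓝[≠] 0) (𝓝 c)) : O N f := by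
  refine O.of_shift (-N) ?_
  rw [add_neg_cancel]
  exact ⟨mer_mul_zpow hf _,
    (tendsto_nhds_iff_meromorphicOrderAt_nonneg (mer_mul_zpow hf _)).mp ⟨c, h⟩⟩

theorem O.succ {N : ℤ} {f : ℂ → ℂ} (hf : MeromorphicAt f 0)
    (h : Tendsto (fun w => f w * w ^ (-N)) (𝓝[≠] 0) (𝓝 0)) : O (N + 1) f := by
  refine O.of_shift (-N) ?_
  have h1 : N + 1 + -N = 1 := by ring
  rw [h1]
  refine ⟨mer_mul_zpow hf _, ?_⟩
  have h2 := (tendsto_zero_iff_meromorphicOrderAt_pos (mer_mul_zpow hf (-N))).mp h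
  cases h3 : meromorphicOrderAt (fun w => f w * w ^ (-N)) 0 with
  | top => exact le_top
  | coe n =>
    rw [h3] at h2
    have h4 : (0 : ℤ) < n := WithTop.coe_lt_coe.mp h2
    exact WithTop.coe_le_coe.mpr (by omega)

theorem O.lim0 {N : ℤ} {f : ℂ → ℂ} (hf : O N f) {m : ℤ} (h : 0 < N + m) :
    Tendsto (fun w => f w * w ^ m) (𝓝[≠] 0) (𝓝 0) := by
  refine tendsto_zero_of_meromorphicOrderAt_pos ?_
  exact lt_of_lt_of_le (WithTop.coe_lt_coe.mpr h) (hf.shift m).ord

theorem O.low {f : ℂ → ℂ} (hf : MeromorphicAt f 0) : ∃ a, O a f := by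
  cases h : meromorphicOrderAt f 0 with
  | top => exact ⟨0, hf, by rw [h]; exact le_top⟩
  | coe n => exact ⟨n, hf, h.ge⟩

theorem O.iff_an {N : ℤ} {f : ℂ → ℂ} : O N f ↔
    ∃ g : ℂ → ℂ, AnalyticAt ℂ g 0 ∧ ∀ᶠ w in 𝓝[≠] (0 : ℂ), f w = w ^ N * g w := by
  constructor
  · intro hf
    have h := hf.shift (-N)
    rw [add_neg_cancel] at h
    obtain ⟨g, hg, h1⟩ := (h.mer.meromorphicOrderAt_nonneg_iff).mp h.ord
    refine ⟨g, hg, ?_⟩
    filter_upwards [h1, ev_ne] with w hw h0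
    rw [← hw, mul_comm, mul_assoc, ← zpow_add₀ h0, neg_add_cancel, zpow_zero, mul_one]
  · rintro ⟨g, hg, h⟩
    have h1 : O 0 g := ⟨hg.meromorphicAt, hg.meromorphicOrderAt_nonneg⟩
    have h2 := (O.zpow N).mul h1
    rw [add_zero] at h2
    exact h2.congr (h.mono fun w hw => hw.symm)

theorem O.deriv {N : ℤ} {f : ℂ → ℂ} (hf : O N f) : O (N - 1) (deriv f) := by
  obtain ⟨g, hg, h⟩ := O.iff_an.mp hf
  have hg1 : O 0 g := ⟨hg.meromorphicAt, hg.meromorphicOrderAt_nonneg⟩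
  have hg2 : O 0 (_root_.deriv g) := ⟨hg.deriv.meromorphicAt, hg.deriv.meromorphicOrderAt_nonneg⟩
  have h1 : O (N - 1) (fun w => (N : ℂ) * w ^ (N - 1) * g w) := by
    have h2 := ((O.zpow (N - 1)).cmul (N : ℂ)).mul hg1
    rwa [add_zero] at h2
  have h2 : O (N - 1) (fun w => w ^ N * _root_.deriv g w) := by
    have h3 := (O.zpow N).mul hg2
    rw [add_zero] at h3
    exact h3.mono (by omega)
  refine (h1.add h2).congr ?_
  have h3 : ∀ᶠ w in 𝓝[≠] (0 : ℂ), _root_.deriv f w = _root_.deriv (fun z => z ^ N * g z) w :=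
    Filter.EventuallyEq.nhdsNE_deriv h
  filter_upwards [h3, hg.eventually_analyticAt.filter_mono nhdsWithin_le_nhds, ev_ne] with w h4 h5 h6
  rw [h4]
  have h7 := (hasDerivAt_zpow N w (Or.inl h6)).mul h5.differentiableAt.hasDerivAt
  exact h7.deriv.symm

theorem O.comp {N : ℤ} {f : ℂ → ℂ} (hf : O N f) {b : ℂ} (hb : b ≠ 0) :
    O N (fun w => f (b * w)) := by
  obtain ⟨g, hg, h⟩ := O.iff_an.mp hf
  have hm : Tendsto (fun w : ℂ => b * w) (𝓝[≠] 0) (𝓝[≠] 0) := by
    refine tendsto_nhdsWithin_iff.mpr ⟨?_, ?_⟩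
    · have h1 : Tendsto (fun w : ℂ => b * w) (𝓝 0) (𝓝 (b * 0)) := by
        exact (continuous_const.mul continuous_id).tendsto 0
      rw [mul_zero] at h1
      exact h1.mono_left nhdsWithin_le_nhds
    · filter_upwards [ev_ne] with w hw
      exact mul_ne_zero hb hw
  refine O.iff_an.mpr ⟨fun w => b ^ N * g (b * w), ?_, ?_⟩
  · refine analyticAt_const.mul ?_
    refine AnalyticAt.fun_comp (g := g) (f := fun w => b * w) ?_ (by fun_prop)
    simpa using hg
  · filter_upwards [hm.eventually h] with w hw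
    rw [hw, mul_zpow]
    ring

/-- the inverse -/
theorem mer_inv {f : ℂ → ℂ} (hf : MeromorphicAt f 0) : MeromorphicAt (fun w => (f w)⁻¹) 0 :=
  hf.fun_inv

/-! ### The parameter -/

theorem T_ne {T : ℂ → ℂ} (hT : Uni T) : ∀ᶠ w in 𝓝[≠] (0 : ℂ), T w ≠ 0 := by
  have h := hT.lim.eventually_ne one_ne_zero
  filter_upwards [h] with w hw h0
  rw [h0, zero_div] at hw
  exact hw rfl

theorem T_mer {T : ℂ → ℂ} (hT : Uni T) (k : ℤ) : MeromorphicAt (fun w => T w ^ k) 0 :=
  hT.mer.fun_zpow k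

theorem T_lim {T : ℂ → ℂ} (hT : Uni T) (k : ℤ) :
    Tendsto (fun w => T w ^ k * w ^ (-k)) (𝓝[≠] 0) (𝓝 1) := by
  have h := hT.lim.zpow₀ k (Or.inl one_ne_zero)
  rw [one_zpow] at h
  refine h.congr' ?_
  filter_upwards with w
  rw [div_zpow, zpow_neg, div_eq_mul_inv]

theorem T_O {T : ℂ → ℂ} (hT : Uni T) (k : ℤ) : O k (fun w => T w ^ k) :=
  O.of_lim (T_mer hT k) (T_lim hT k)

theorem cT_O {T : ℂ → ℂ} (hT : Uni T) (c : ℂ) (k : ℤ) : O k (fun w => c * T w ^ k) :=
  (T_O hT k).cmul c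

/-! ### Approximations -/

section

variable {Γ : Type} [LinearOrderedCommGroupWithZero Γ] {v : Valuation ℂ Γ} {T : ℂ → ℂ}

theorem sum_mer (hT : Uni T) (c : ℤ → ℂ) (s : Finset ℤ) :
    MeromorphicAt (fun w => ∑ k ∈ s, c k * T w ^ k) 0 := by
  refine MeromorphicAt.fun_sum fun k _ => ?_
  exact (MeromorphicAt.const (c k) 0).fun_mul (T_mer hT k)

theorem IR.appO (hT : Uni T) {f : ℂ → ℂ} (hf : IR v T f) (N : ℤ) :
    ∃ (a : ℤ) (c : ℤ → ℂ), (∀ k, v (c k) ≤ 1) ∧
      O N (fun w => f w - ∑ k ∈ Finset.Ico a N, c k * T w ^ k) := by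
  obtain ⟨a, c, h1, h2⟩ := hf.app N
  exact ⟨a, c, h1, hf.mer.fun_sub (sum_mer hT c _), h2⟩

theorem IR.ofO {f : ℂ → ℂ} (hm : MeromorphicAt f 0)
    (h : ∀ N : ℤ, ∃ (a : ℤ) (c : ℤ → ℂ), (∀ k, v (c k) ≤ 1) ∧
      O N (fun w => f w - ∑ k ∈ Finset.Ico a N, c k * T w ^ k)) : IR v T f :=
  ⟨hm, fun N => by
    obtain ⟨a, c, h1, h2⟩ := h N
    exact ⟨a, c, h1, h2.ord⟩⟩

theorem IR.cg (hT : Uni T) {f g : ℂ → ℂ} (h : f =ᶠ[𝓝[≠] 0] g) (hf : IR v T f) : IR v T g := by
  refine IR.ofO (hf.mer.congr h) fun N => ?_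
  obtain ⟨a, c, h1, h2⟩ := IR.appO hT hf N
  refine ⟨a, c, h1, h2.congr ?_⟩
  filter_upwards [h] with w hw
  rw [hw]

/-- a function with approximations of every order is itself a series -/
theorem IR.lim (hT : Uni T) {f : ℂ → ℂ} (hm : MeromorphicAt f 0)
    (h : ∀ N : ℤ, ∃ P : ℂ → ℂ, IR v T P ∧ O N (fun w => f w - P w)) : IR v T f := by
  refine IR.ofO hm fun N => ?_
  obtain ⟨P, h1, h2⟩ := h N
  obtain ⟨a, c, h3, h4⟩ := IR.appO hT h1 N
  refine ⟨a, c, h3, (h2.add h4).congr (Eventually.of_forall fun w => ?_)⟩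
  ring

theorem ite_sum (w : ℂ) (c : ℤ → ℂ) (a b N : ℤ) (h : b ≤ a) :
    ∑ k ∈ Finset.Ico b N, (if a ≤ k then c k else 0) * T w ^ k =
      ∑ k ∈ Finset.Ico a N, c k * T w ^ k := by
  have h1 : ∀ k ∈ Finset.Ico b N, (if a ≤ k then c k else 0) * T w ^ k =
      if a ≤ k then c k * T w ^ k else 0 := by
    intro k _
    split_ifs <;> simp
  rw [Finset.sum_congr rfl h1, ← Finset.sum_filter]
  refine Finset.sum_congr ?_ fun _ _ => rfl
  ext k
  simp only [Finset.mem_filter, Finset.mem_Ico]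
  omega

theorem IR.sm (hT : Uni T) {f g : ℂ → ℂ} (hf : IR v T f) (hg : IR v T g) :
    IR v T (fun w => f w + g w) := by
  refine IR.ofO (hf.mer.fun_add hg.mer) fun N => ?_
  obtain ⟨a, c, h1, h2⟩ := IR.appO hT hf N
  obtain ⟨b, d, h3, h4⟩ := IR.appO hT hg N
  refine ⟨min a b, fun k => (if a ≤ k then c k else 0) + (if b ≤ k then d k else 0), ?_, ?_⟩
  · intro k
    refine le_trans (v.map_add _ _) (max_le ?_ ?_)
    · split_ifs
      · exact h1 k
      · simp
    · split_ifs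
      · exact h3 k
      · simp
  · refine (h2.add h4).congr (Eventually.of_forall fun w => ?_)
    have h5 : ∑ k ∈ Finset.Ico (min a b) N,
        ((if a ≤ k then c k else 0) + (if b ≤ k then d k else 0)) * T w ^ k =
        ∑ k ∈ Finset.Ico a N, c k * T w ^ k + ∑ k ∈ Finset.Ico b N, d k * T w ^ k := by
      rw [← ite_sum w c a (min a b) N (min_le_left _ _),
        ← ite_sum w d b (min a b) N (min_le_right _ _), ← Finset.sum_add_distrib]
      exact Finset.sum_congr rfl fun k _ => by ring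
    simp only [h5]
    ring

/-- monomials -/
theorem IR.mn (hT : Uni T) {c : ℂ} (hc : v c ≤ 1) (k : ℤ) : IR v T (fun w => c * T w ^ k) := by
  refine IR.ofO (cT_O hT c k).mer fun N => ?_
  refine ⟨min k N, fun j => if j = k then c else 0, ?_, ?_⟩
  · intro j
    simp only
    split_ifs
    · exact hc
    · simp
  · have h1 : ∀ w : ℂ, ∑ j ∈ Finset.Ico (min k N) N, (if j = k then c else 0) * T w ^ j =
        if k < N then c * T w ^ k else 0 := by
      intro w
      have h2 : ∀ j ∈ Finset.Ico (min k N) N, (if j = k then c else 0) * T w ^ j =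
          if j = k then c * T w ^ k else 0 := by
        intro j _
        split_ifs with h
        · rw [h]
        · simp
      rw [Finset.sum_congr rfl h2, Finset.sum_ite_eq']
      congr 1
      simp only [Finset.mem_Ico, eq_iff_iff]
      omega
    by_cases hk : k < N
    · refine (O.zero N).congr (Eventually.of_forall fun w => ?_)
      simp only [h1, if_pos hk, sub_self]
    · refine ((cT_O hT c k).mono (not_lt.mp hk)).congr (Eventually.of_forall fun w => ?_)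
      simp only [h1, if_neg hk, sub_zero]

theorem IR.cn (hT : Uni T) {c : ℂ} (hc : v c ≤ 1) : IR v T (fun _ => c) := by
  refine IR.cg hT (Eventually.of_forall fun w => ?_) (IR.mn hT hc 0)
  simp

theorem IR.tk (hT : Uni T) (k : ℤ) : IR v T (fun w => T w ^ k) := by
  refine IR.cg hT (Eventually.of_forall fun w => ?_) (IR.mn (v := v) hT (c := 1) (by simp) k)
  simp

theorem IR.fsum (hT : Uni T) {ι : Type*} (s : Finset ι) (f : ι → ℂ → ℂ)
    (h : ∀ i ∈ s, IR v T (f i)) : IR v T (fun w => ∑ i ∈ s, f i w) := by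
  classical
  induction s using Finset.induction_on with
  | empty =>
    refine IR.cg hT (Eventually.of_forall fun w => ?_) (IR.cn (v := v) hT (c := 0) (by simp))
    simp
  | insert i s hi ih =>
    have h1 := IR.sm hT (h i (Finset.mem_insert_self i s))
      (ih fun j hj => h j (Finset.mem_insert_of_mem hj))
    refine IR.cg hT (Eventually.of_forall fun w => ?_) h1
    simp only [Finset.sum_insert hi]

theorem IR.mulmn (hT : Uni T) {f : ℂ → ℂ} (hf : IR v T f) {c : ℂ} (hc : v c ≤ 1) (k : ℤ) :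
    IR v T (fun w => c * T w ^ k * f w) := by
  refine IR.lim hT ((cT_O hT c k).mer.fun_mul hf.mer) fun N => ?_
  obtain ⟨a, d, h1, h2⟩ := IR.appO hT hf (N - k)
  refine ⟨fun w => ∑ j ∈ Finset.Ico a (N - k), c * d j * T w ^ (k + j), ?_, ?_⟩
  · refine IR.fsum hT _ _ fun j _ => ?_
    refine IR.mn hT ?_ _
    rw [map_mul]
    exact mul_le_one' hc (h1 j)
  · have h3 := (cT_O hT c k).mul h2
    have h4 : k + (N - k) = N := by ring
    rw [h4] at h3
    refine h3.congr ?_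
    filter_upwards [T_ne hT] with w hw
    rw [mul_sub, Finset.mul_sum]
    congr 1
    refine Finset.sum_congr rfl fun j _ => ?_
    rw [zpow_add₀ hw]
    ring

theorem IR.ml (hT : Uni T) {f g : ℂ → ℂ} (hf : IR v T f) (hg : IR v T g) :
    IR v T (fun w => f w * g w) := by
  refine IR.lim hT (hf.mer.fun_mul hg.mer) fun N => ?_
  obtain ⟨b, hb⟩ := O.low hg.mer
  obtain ⟨a, c, h1, h2⟩ := IR.appO hT hf (N - b)
  refine ⟨fun w => ∑ k ∈ Finset.Ico a (N - b), c k * T w ^ k * g w, ?_, ?_⟩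
  · exact IR.fsum hT _ _ fun k _ => IR.mulmn hT hg (h1 k) k
  · have h3 := h2.mul hb
    have h4 : N - b + b = N := by ring
    rw [h4] at h3
    refine h3.congr (Eventually.of_forall fun w => ?_)
    simp only
    rw [sub_mul, Finset.sum_mul]

theorem IR.ng (hT : Uni T) {f : ℂ → ℂ} (hf : IR v T f) : IR v T (fun w => -f w) := by
  have h := IR.ml hT (IR.cn (v := v) hT (c := -1) (by simp)) hf
  refine IR.cg hT (Eventually.of_forall fun w => ?_) h
  simp

theorem IR.sb (hT : Uni T) {f g : ℂ → ℂ} (hf : IR v T f) (hg : IR v T g) :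
    IR v T (fun w => f w - g w) := by
  refine IR.cg hT (Eventually.of_forall fun w => ?_) (IR.sm hT hf (IR.ng hT hg))
  simp only
  ring

theorem IR.pw (hT : Uni T) {f : ℂ → ℂ} (hf : IR v T f) (n : ℕ) : IR v T (fun w => f w ^ n) := by
  induction n with
  | zero =>
    refine IR.cg hT (Eventually.of_forall fun w => ?_) (IR.cn (v := v) hT (c := 1) (by simp))
    simp
  | succ n ih =>
    refine IR.cg hT (Eventually.of_forall fun w => ?_) (IR.ml hT ih hf)
    simp only [pow_succ]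

theorem IR.cf (hT : Uni T) {f : ℂ → ℂ} (hf : IR v T f) {c : ℂ} (hc : v c ≤ 1) :
    IR v T (fun w => c * f w) := IR.ml hT (IR.cn hT hc) hf

/-- successive approximation -/
theorem IR.build (hT : Uni T) {g : ℂ → ℂ} {j0 : ℤ} (h0 : O j0 g)
    (h : ∀ (j : ℤ) (Q : ℂ → ℂ) (d : ℂ), j0 ≤ j → IR v T Q → (j = j0 → Q = fun _ => 0) →
      O j (fun w => g w - Q w) → (j0 < j → O (j0 + 1) (fun w => g w - Q w)) →
      Tendsto (fun w => (g w - Q w) * w ^ (-j)) (𝓝[≠] 0) (𝓝 d) → v d ≤ 1) : IR v T g := by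
  have key : ∀ n : ℕ, ∃ Q : ℂ → ℂ, IR v T Q ∧ (j0 + n = j0 → Q = fun _ => 0) ∧
      O (j0 + n) (fun w => g w - Q w) := by
    intro n
    induction n with
    | zero =>
      refine ⟨fun _ => 0, IR.cn hT (by simp), fun _ => rfl, ?_⟩
      refine (h0.congr (Eventually.of_forall fun w => ?_)).mono (by simp)
      simp
    | succ n ih =>
      obtain ⟨Q, h1, h2, h3⟩ := ih
      obtain ⟨d, hd⟩ := h3.lim
      have hv : v d ≤ 1 := h (j0 + n) Q d (by omega) h1 h2 h3
        (fun hj => h3.mono (by omega)) hd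
      refine ⟨fun w => Q w + d * T w ^ (j0 + n), IR.sm hT h1 (IR.mn hT hv _), ?_, ?_⟩
      · intro h4
        exfalso
        push_cast at h4
        omega
      · have h5 : j0 + ((n + 1 : ℕ) : ℤ) = j0 + n + 1 := by push_cast; ring
        rw [h5]
        have h6 : MeromorphicAt (fun w => g w - (Q w + d * T w ^ (j0 + (n : ℤ)))) 0 :=
          h0.mer.fun_sub (h1.mer.fun_add (cT_O hT d _).mer)
        refine O.succ h6 ?_
        have h7 := hd.sub ((T_lim hT (j0 + n)).const_mul d)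
        rw [mul_one, sub_self] at h7
        refine h7.congr fun w => ?_
        ring
  refine IR.lim hT h0.mer fun N => ?_
  obtain ⟨Q, h1, -, h3⟩ := key (N - j0).toNat
  refine ⟨Q, h1, h3.mono ?_⟩
  omega

end

end Pool.Agent.Q38.BKL
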