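import Pool.Agent.Q38.BKL.IR2

/-!
# Inverses and roots of series with integral coefficients

`S_IR3` of `Pool.Agent.Q274.BKL.Stm`.
-/

set_option autoImplicit false
set_option linter.unusedVariables false

open Filter
open scoped Topology

namespace Pool.Agent.Q38.BKL

open Pool.Agent.Q274.BKL (Uni IR)

section

variable {Γ : Type} [LinearOrderedCommGroupWithZero Γ] {v : Valuation ℂ Γ} {T f : ℂ → ℂ}

theorem le_of_mul {x y : ℂ} (hx : v x = 1) (h : v (x * y) ≤ 1) : v y ≤ 1 := by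
  rwa [map_mul, hx, one_mul] at h

theorem IR.iv (hT : Uni T) (hf : IR v T f) {m : ℤ} {c : ℂ}
    (h : Tendsto (fun w => f w * w ^ m) (𝓝[≠] 0) (𝓝 c)) (hc : v c = 1) :
    IR v T (fun w => (f w)⁻¹) := by
  have hc0 : c ≠ 0 := by
    rintro rfl
    rw [map_zero] at hc
    exact zero_ne_one hc
  have hg : Tendsto (fun w => (f w)⁻¹ * w ^ (-m)) (𝓝[≠] 0) (𝓝 c⁻¹) := by
    refine (h.inv₀ hc0).congr fun w => ?_
    rw [mul_inv, zpow_neg]
  have hO : O m (fun w => (f w)⁻¹) := O.of_lim (mer_inv hf.mer) hg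
  have hne : ∀ᶠ w in 𝓝[≠] (0 : ℂ), f w ≠ 0 := by
    filter_upwards [h.eventually_ne hc0] with w hw h0
    rw [h0, zero_mul] at hw
    exact hw rfl
  refine IR.build hT hO fun j Q d hj hQ _ _ _ hd => ?_
  have h1 : IR v T (fun w => 1 - f w * Q w) := IR.sb hT (IR.cn hT (by simp)) (IR.ml hT hf hQ)
  refine le_of_mul hc (ir2 hT h1 (m - j) (c * d) ?_)
  refine (h.mul hd).congr' ?_
  filter_upwards [hne, ev_ne] with w h2 h3
  have h4 : f w * w ^ m * (((f w)⁻¹ - Q w) * w ^ (-j)) =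
      (f w * (f w)⁻¹ - f w * Q w) * (w ^ m * w ^ (-j)) := by ring
  rw [h4, mul_inv_cancel₀ h2, ← zpow_add₀ h3, ← sub_eq_add_neg]

theorem IR.rt (hT : Uni T) {m : ℤ} {N : ℕ} (hm : MeromorphicAt f 0)
    (h : Tendsto (fun w => f w * w ^ m) (𝓝[≠] 0) (𝓝 1)) (hN : v (N : ℂ) = 1)
    (hf : IR v T (fun w => f w ^ N)) : IR v T f := by
  have hO : O (-m) f := O.of_lim hm (c := 1) (by rwa [neg_neg])
  refine IR.build hT hO fun j Q d hj hQ h1 h2 h3 hd => ?_
  rcases hj.eq_or_lt with hj | hj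
  · have h4 := h1 hj.symm
    have h5 : d = 1 := by
      refine tendsto_nhds_unique hd ?_
      refine h.congr fun w => ?_
      rw [h4, ← hj, neg_neg, sub_zero]
    rw [h5, map_one]
  · have h4 := (h3 hj).lim0 (m := m) (by omega)
    have hG : Tendsto (fun w => Q w * w ^ m) (𝓝[≠] 0) (𝓝 1) := by
      have h5 := h.sub h4
      rw [sub_zero] at h5
      refine h5.congr fun w => ?_
      ring
    have hS : Tendsto (fun w => ∑ i ∈ Finset.range N, (f w * w ^ m) ^ i *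
        (Q w * w ^ m) ^ (N - 1 - i)) (𝓝[≠] 0) (𝓝 (N : ℂ)) := by
      have h5 : Tendsto (fun w => ∑ i ∈ Finset.range N, (f w * w ^ m) ^ i *
          (Q w * w ^ m) ^ (N - 1 - i)) (𝓝[≠] 0)
          (𝓝 (∑ i ∈ Finset.range N, (1 : ℂ) ^ i * 1 ^ (N - 1 - i))) :=
        tendsto_finsetSum _ fun i _ => (h.pow i).mul (hG.pow (N - 1 - i))
      simpa using h5
    have hI : IR v T (fun w => f w ^ N - Q w ^ N) := IR.sb hT hf (IR.pw hT hQ N)
    refine le_of_mul hN (ir2 hT hI (m * N - (m + j)) (N * d) ?_)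
    refine (hS.mul hd).congr' ?_
    filter_upwards [ev_ne] with w hw
    have h5 : (f w - Q w) * w ^ (-j) = (f w * w ^ m - Q w * w ^ m) * w ^ (-(m + j)) := by
      have h6 : w ^ (-j) = w ^ m * w ^ (-(m + j)) := by
        rw [← zpow_add₀ hw]
        congr 1
        ring
      rw [h6]
      ring
    rw [h5, ← mul_assoc, geom_sum₂_mul, mul_pow, mul_pow, ← zpow_natCast (w ^ m) N, ← zpow_mul,
      ← sub_mul, mul_assoc, ← zpow_add₀ hw, ← sub_eq_add_neg]

end

theorem t_IR3 : Pool.Agent.Q274.BKL.S_IR3 := by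
  intro _ _ Γ _ v T f hT
  exact ⟨fun m c hf h hc => IR.iv hT hf h hc, fun m N hm h _ hN hf => IR.rt hT hm h hN hf⟩

end Pool.Agent.Q38.BKL
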